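import Pool.Agent.Lib.MP_794d84_al.Main

/-!
The group `H9 ℤ ⋊ C₃`, its generators `a` and `t`, and its geodesics.
-/

set_option autoImplicit false

namespace Pool.Agent.Lib.MP_794d84_al

open H9

/-- Powers of the rotation. -/
def rotp (i : ZMod 3) : MulAut (H9 ℤ) :=
  if i = 0 then 1 else if i = 1 then (rot : MulAut (H9 ℤ)) else
    (rot : MulAut (H9 ℤ)) * (rot : MulAut (H9 ℤ))

lemma rotp_0 : rotp 0 = 1 := by simp [rotp]
lemma rotp_1 : rotp 1 = rot := by simp [rotp]
lemma rotp_2 : rotp 2 = (rot : MulAut (H9 ℤ)) * (rot : MulAut (H9 ℤ)) := by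
  have h : (2 : ZMod 3) ≠ 0 := by decide
  have h' : (2 : ZMod 3) ≠ 1 := by decide
  simp [rotp, h, h']

lemma rot_cube : (rot : MulAut (H9 ℤ)) * (rot : MulAut (H9 ℤ)) * (rot : MulAut (H9 ℤ)) = 1 := by
  ext x <;> rfl

lemma rotp_add (i j : ZMod 3) : rotp (i + j) = rotp i * rotp j := by
  have e1 : (1 : ZMod 3) + 1 = 2 := by decide
  have e2 : (1 : ZMod 3) + 2 = 0 := by decide
  have e3 : (2 : ZMod 3) + 1 = 0 := by decide
  have e4 : (2 : ZMod 3) + 2 = 1 := by decide
  obtain rfl | rfl | rfl := zmod3_cases i <;> obtain rfl | rfl | rfl := zmod3_cases j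
  · simp [rotp_0]
  · simp [rotp_0, rotp_1]
  · simp [rotp_0, rotp_2]
  · simp [rotp_0, rotp_1]
  · rw [e1, rotp_1, rotp_2]
  · rw [e2, rotp_0, rotp_1, rotp_2, ← mul_assoc, rot_cube]
  · simp [rotp_0, rotp_2]
  · rw [e3, rotp_0, rotp_1, rotp_2, rot_cube]
  · rw [e4, rotp_1, rotp_2, ← mul_assoc, rot_cube, one_mul]

lemma rotp_gen (i j : ZMod 3) (n : ℤ) : rotp i (gen j n) = gen (i + j) n := by
  obtain rfl | rfl | rfl := zmod3_cases i
  · simp [rotp_0]
  · rw [rotp_1, rot_gen, add_comm]
  · rw [rotp_2, MulAut.mul_apply, rot_gen, rot_gen]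
    congr 1
    have e : (1 : ZMod 3) + 1 = 2 := by decide
    rw [← e]; ring

/-- The action of `C₃`. -/
def phi : Multiplicative (ZMod 3) →* MulAut (H9 ℤ) where
  toFun i := rotp i.toAdd
  map_one' := rotp_0
  map_mul' _ _ := rotp_add _ _

/-- The ambient group. -/
abbrev Amb : Type := H9 ℤ ⋊[phi] Multiplicative (ZMod 3)

/-- Elements of the ambient group. -/
def el (x : H9 ℤ) (j : ZMod 3) : Amb := ⟨x, Multiplicative.ofAdd j⟩

lemma el_mul (x y : H9 ℤ) (i j : ZMod 3) : el x i * el y j = el (x * rotp i y) (i + j) := rfl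

lemma el_one : el 1 0 = 1 := rfl

/-- The letters `a, a⁻¹, t, t⁻¹`. -/
inductive Ltr | ap | am | tp | tm
deriving DecidableEq

open Ltr

instance : Fintype Ltr := ⟨{ap, am, tp, tm}, by intro x; cases x <;> simp⟩

/-- The generators. -/
def io : Ltr → Amb
  | ap => el (gen 0 1) 0
  | am => el (gen 0 (-1)) 0
  | tp => el 1 1
  | tm => el 1 (-1)

/-- The word in `a, b, c` read off from a word in `a, t`. -/
def conv : ZMod 3 → List Ltr → List (ZMod 3 × ℤ)
  | _, [] => []
  | j, ap :: l => (j, 1) :: conv j l
  | j, am :: l => (j, -1) :: conv j l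
  | j, tp :: l => conv (j + 1) l
  | j, tm :: l => conv (j - 1) l

/-- The total exponent of `t`. -/
def tsum : List Ltr → ZMod 3
  | [] => 0
  | ap :: l => tsum l
  | am :: l => tsum l
  | tp :: l => tsum l + 1
  | tm :: l => tsum l - 1

lemma prod_io (l : List Ltr) : ∀ (y : H9 ℤ) (j : ZMod 3),
    el y j * (l.map io).prod = el (y * val (conv j l)) (j + tsum l) := by
  induction l with
  | nil => intro y j; simp [conv, tsum]
  | cons x l ih =>
    intro y j
    rw [List.map_cons, List.prod_cons, ← mul_assoc]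
    cases x with
    | ap =>
      simp only [io, el_mul, conv, tsum, val_cons, rotp_gen]
      rw [ih]
      simp [mul_assoc]
    | am =>
      simp only [io, el_mul, conv, tsum, val_cons, rotp_gen]
      rw [ih]
      simp [mul_assoc]
    | tp =>
      simp only [io, el_mul, conv, tsum]
      rw [ih]
      congr 1
      · simp
      · ring
    | tm =>
      simp only [io, el_mul, conv, tsum, ← sub_eq_add_neg]
      rw [ih]
      congr 1
      · simp
      · ring

/-- Number of letters `t^{±1}`. -/
def nt : List Ltr → ℕ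
  | [] => 0
  | ap :: l => nt l
  | am :: l => nt l
  | tp :: l => nt l + 1
  | tm :: l => nt l + 1

lemma length_eq (l : List Ltr) : ∀ j, (l.length : ℤ) = cost (conv j l) + nt l := by
  induction l with
  | nil => intro j; simp [conv, nt, cost]
  | cons x l ih =>
    intro j
    cases x with
    | ap => rw [List.length_cons, conv, nt, cost_cons]; push_cast; rw [ih j]; simp; ring
    | am => rw [List.length_cons, conv, nt, cost_cons]; push_cast; rw [ih j]; simp; ring
    | tp => rw [List.length_cons, conv, nt]; push_cast; rw [ih (j + 1)]; ring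
    | tm => rw [List.length_cons, conv, nt]; push_cast; rw [ih (j - 1)]; ring

/-- The word `a^n`. -/
def apath (n : ℤ) : List Ltr :=
  if 0 ≤ n then List.replicate n.natAbs ap else List.replicate n.natAbs am

lemma length_apath (n : ℤ) : (apath n).length = n.natAbs := by
  unfold apath; split_ifs <;> simp

lemma val_conv_rep_ap (j : ZMod 3) (k : ℕ) :
    val (conv j (List.replicate k ap)) = gen j (k : ℤ) := by
  induction k with
  | zero => simp [conv]
  | succ k ih =>
    rw [List.replicate_succ, conv, val_cons, ih, ← gen_add]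
    push_cast; ring_nf

lemma val_conv_rep_am (j : ZMod 3) (k : ℕ) :
    val (conv j (List.replicate k am)) = gen j (-(k : ℤ)) := by
  induction k with
  | zero => simp [conv]
  | succ k ih =>
    rw [List.replicate_succ, conv, val_cons, ih, ← gen_add]
    push_cast; ring_nf

lemma tsum_rep_ap (k : ℕ) : tsum (List.replicate k ap) = 0 := by
  induction k with
  | zero => rfl
  | succ k ih => rw [List.replicate_succ, tsum, ih]

lemma tsum_rep_am (k : ℕ) : tsum (List.replicate k am) = 0 := by
  induction k with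
  | zero => rfl
  | succ k ih => rw [List.replicate_succ, tsum, ih]

lemma prod_apath (n : ℤ) (y : H9 ℤ) (j : ZMod 3) :
    el y j * ((apath n).map io).prod = el (y * gen j n) j := by
  rw [prod_io]
  unfold apath
  split_ifs with h
  · rw [val_conv_rep_ap, tsum_rep_ap, add_zero]
    congr 3
    omega
  · rw [val_conv_rep_am, tsum_rep_am, add_zero]
    congr 3
    omega

/-- The word `t^i`. -/
def tpath (i : ZMod 3) : List Ltr := if i = 0 then [] else if i = 1 then [tp] else [tm]

lemma length_tpath (i : ZMod 3) : (tpath i).length ≤ 1 := by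
  unfold tpath; split_ifs <;> simp

lemma prod_tpath (i : ZMod 3) (y : H9 ℤ) (j : ZMod 3) :
    el y j * ((tpath i).map io).prod = el y (j + i) := by
  rw [prod_io]
  obtain rfl | rfl | rfl := zmod3_cases i
  · simp [tpath, conv, tsum]
  · simp [tpath, conv, tsum]
  · have h : (2 : ZMod 3) ≠ 0 := by decide
    have h' : (2 : ZMod 3) ≠ 1 := by decide
    have h2 : (-1 : ZMod 3) = 2 := by decide
    simp [tpath, conv, tsum, h, h', h2]

/-- The word in `a, t` spelling a word in `a, b, c`. -/
def back : ZMod 3 → List (ZMod 3 × ℤ) → ZMod 3 → List Ltr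
  | j, [], e => tpath (e - j)
  | j, s :: w, e => tpath (s.1 - j) ++ (apath s.2 ++ back s.1 w e)

lemma prod_back (w : List (ZMod 3 × ℤ)) (e : ZMod 3) : ∀ (y : H9 ℤ) (j : ZMod 3),
    el y j * ((back j w e).map io).prod = el (y * val w) e := by
  induction w with
  | nil => intro y j; rw [back, prod_tpath]; simp
  | cons s w ih =>
    intro y j
    rw [back, List.map_append, List.map_append, List.prod_append, List.prod_append,
      ← mul_assoc, ← mul_assoc, prod_tpath, prod_apath, add_sub_cancel, ih, val_cons, mul_assoc]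

lemma length_back (w : List (ZMod 3 × ℤ)) (e : ZMod 3) : ∀ j : ZMod 3,
    ((back j w e).length : ℤ) ≤ cost w + w.length + 1 := by
  induction w with
  | nil =>
    intro j; rw [back]
    have := length_tpath (e - j)
    simp [cost]
    omega
  | cons s w ih =>
    intro j
    rw [back, List.length_append, List.length_append, length_apath, cost_cons, List.length_cons]
    have h1 := length_tpath (s.1 - j)
    have h2 := ih s.1
    push_cast
    have h3 : ((tpath (s.1 - j)).length : ℤ) ≤ 1 := by exact_mod_cast h1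
    linarith

/-- A word is geodesic. -/
def IsGeo (l : List Ltr) : Prop :=
  ∀ l' : List Ltr, (l'.map io).prod = (l.map io).prod → l.length ≤ l'.length

/-- Geodesics have boundedly many letters `t^{±1}`. -/
lemma geo_nt : ∃ M : ℕ, ∀ l, IsGeo l → nt l ≤ M := by
  obtain ⟨K, hK⟩ := main_lemma
  refine ⟨2 * K + 1, ?_⟩
  intro l hl
  obtain ⟨w, h1, h2, h3⟩ := hK (conv 0 l)
  have h4 := hl (back 0 w (tsum l)) (by
    have e1 := prod_back w (tsum l) 1 0
    have e2 := prod_io l 1 0
    rw [el_one, one_mul, one_mul] at e1 e2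
    rw [e1, e2, h1, zero_add])
  have h5 := length_back w (tsum l) 0
  have h6 := length_eq l 0
  have h7 : (w.length : ℤ) ≤ K := by exact_mod_cast h3
  omega

/-- No cancellation. -/
def Red (l : List Ltr) : Prop :=
  ∀ u v, l ≠ u ++ ap :: am :: v ∧ l ≠ u ++ am :: ap :: v

lemma io_ap_am : io ap * io am = 1 := by
  simp only [io, el_mul, rotp_0, MulAut.one_apply, ← gen_add]
  simp [el_one]

lemma io_am_ap : io am * io ap = 1 := by
  simp only [io, el_mul, rotp_0, MulAut.one_apply, ← gen_add]
  simp [el_one]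

lemma IsGeo.red {l : List Ltr} (h : IsGeo l) : Red l := by
  intro u v
  constructor
  · rintro rfl
    have := h (u ++ v) (by
      simp only [List.map_append, List.map_cons, List.prod_append, List.prod_cons]
      rw [← mul_assoc (io ap), io_ap_am, one_mul])
    simp at this
  · rintro rfl
    have := h (u ++ v) (by
      simp only [List.map_append, List.map_cons, List.prod_append, List.prod_cons]
      rw [← mul_assoc (io am), io_am_ap, one_mul])
    simp at this

lemma Red.tail {x : Ltr} {l : List Ltr} (h : Red (x :: l)) : Red l := by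
  intro u v
  constructor
  · intro e; exact (h (x :: u) v).1 (by rw [e]; rfl)
  · intro e; exact (h (x :: u) v).2 (by rw [e]; rfl)

lemma apath_zero : apath 0 = [] := rfl

lemma apath_nonneg {n : ℤ} (h : 0 ≤ n) : ap :: apath n = apath (n + 1) := by
  have h' : 0 ≤ n + 1 := by omega
  have e : (n + 1).natAbs = n.natAbs + 1 := by omega
  simp [apath, h, h', e, List.replicate_succ]

lemma apath_nonpos {n : ℤ} (h : n ≤ 0) : am :: apath n = apath (n - 1) := by
  have h' : ¬ 0 ≤ n - 1 := by omega
  have e : (n - 1).natAbs = n.natAbs + 1 := by omega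
  rcases h.lt_or_eq with h0 | rfl
  · have h0' : ¬ 0 ≤ n := by omega
    unfold apath
    rw [if_neg h', if_neg h0', e, List.replicate_succ]
  · rfl

lemma apath_pos {n : ℤ} (h : 0 < n) : ∃ r, apath n = ap :: r := by
  refine ⟨apath (n - 1), ?_⟩
  rw [apath_nonneg (by omega)]; congr 1; ring

lemma apath_neg {n : ℤ} (h : n < 0) : ∃ r, apath n = am :: r := by
  refine ⟨apath (n + 1), ?_⟩
  rw [apath_nonpos (by omega)]; congr 1; ring

lemma decomp (l : List Ltr) (h : Red l) : (∃ n, l = apath n) ∨
    ∃ n x s, l = apath n ++ x :: s ∧ (x = tp ∨ x = tm) ∧ Red s := by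
  induction l with
  | nil => exact Or.inl ⟨0, rfl⟩
  | cons x l ih =>
    cases x with
    | tp => exact Or.inr ⟨0, tp, l, rfl, Or.inl rfl, h.tail⟩
    | tm => exact Or.inr ⟨0, tm, l, rfl, Or.inr rfl, h.tail⟩
    | ap =>
      rcases ih h.tail with ⟨n, hn⟩ | ⟨n, x, s, hn, hx, hs⟩
      · rcases lt_or_ge n 0 with h0 | h0
        · obtain ⟨r, hr⟩ := apath_neg h0
          exact absurd (by rw [hn, hr]; rfl) (h [] r).1
        · exact Or.inl ⟨n + 1, by rw [hn, apath_nonneg h0]⟩
      · rcases lt_or_ge n 0 with h0 | h0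
        · obtain ⟨r, hr⟩ := apath_neg h0
          exact absurd (by rw [hn, hr]; rfl) (h [] (r ++ x :: s)).1
        · exact Or.inr ⟨n + 1, x, s, by rw [hn, ← apath_nonneg h0]; rfl, hx, hs⟩
    | am =>
      rcases ih h.tail with ⟨n, hn⟩ | ⟨n, x, s, hn, hx, hs⟩
      · rcases lt_or_ge 0 n with h0 | h0
        · obtain ⟨r, hr⟩ := apath_pos h0
          exact absurd (by rw [hn, hr]; rfl) (h [] r).2
        · exact Or.inl ⟨n - 1, by rw [hn, apath_nonpos h0]⟩
      · rcases lt_or_ge 0 n with h0 | h0
        · obtain ⟨r, hr⟩ := apath_pos h0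
          exact absurd (by rw [hn, hr]; rfl) (h [] (r ++ x :: s)).2
        · exact Or.inr ⟨n - 1, x, s, by rw [hn, ← apath_nonpos h0]; rfl, hx, hs⟩

lemma nt_append (u v : List Ltr) : nt (u ++ v) = nt u + nt v := by
  induction u with
  | nil => simp [nt]
  | cons x u ih => cases x <;> simp [nt, ih] <;> omega

/-- The runs of length at most `N`. -/
noncomputable def runs (N : ℕ) : Finset (List Ltr) := (Finset.Icc (-(N : ℤ)) N).image apath

lemma card_runs (N : ℕ) : (runs N).card ≤ 2 * N + 1 := by
  refine Finset.card_image_le.trans ?_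
  rw [Int.card_Icc]; omega

/-- Concatenations of at most `m + 1` runs separated by letters `t^{±1}`. -/
noncomputable def T : ℕ → ℕ → Finset (List Ltr)
  | 0, N => runs N
  | m + 1, N => runs N ∪
      ((runs N ×ˢ ({tp, tm} : Finset Ltr)) ×ˢ T m N).image fun p => p.1.1 ++ p.1.2 :: p.2

lemma card_T (m N : ℕ) : (T m N).card ≤ (3 * (2 * N + 1)) ^ (m + 1) := by
  induction m with
  | zero =>
    rw [T]; have := card_runs N; rw [zero_add, pow_one]; omega
  | succ m ih =>
    rw [T]
    refine (Finset.card_union_le _ _).trans ?_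
    have h1 := card_runs N
    have h2 : (((runs N ×ˢ ({tp, tm} : Finset Ltr)) ×ˢ T m N).image
        fun p => p.1.1 ++ p.1.2 :: p.2).card ≤ (2 * N + 1) * 2 * (3 * (2 * N + 1)) ^ (m + 1) := by
      refine Finset.card_image_le.trans ?_
      rw [Finset.card_product, Finset.card_product]
      have h3 : ({tp, tm} : Finset Ltr).card = 2 := by decide
      rw [h3]
      exact Nat.mul_le_mul (Nat.mul_le_mul_right _ h1) ih
    have h4 : 1 ≤ (3 * (2 * N + 1)) ^ (m + 1) := Nat.one_le_pow _ _ (by omega)
    rw [pow_succ (3 * (2 * N + 1)) (m + 1)]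
    nlinarith

lemma mem_T (N : ℕ) : ∀ (m : ℕ) (l : List Ltr), Red l → nt l ≤ m → l.length ≤ N → l ∈ T m N := by
  have hrun : ∀ n : ℤ, (apath n).length ≤ N → apath n ∈ runs N := by
    intro n hn
    rw [length_apath] at hn
    exact Finset.mem_image.2 ⟨n, Finset.mem_Icc.2 ⟨by omega, by omega⟩, rfl⟩
  have hnt : ∀ n : ℤ, nt (apath n) = 0 := by
    intro n
    have h1 : ∀ k, nt (List.replicate k ap) = 0 := by
      intro k; induction k with
      | zero => rfl
      | succ k ih => rw [List.replicate_succ, nt, ih]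
    have h2 : ∀ k, nt (List.replicate k am) = 0 := by
      intro k; induction k with
      | zero => rfl
      | succ k ih => rw [List.replicate_succ, nt, ih]
    unfold apath; split_ifs <;> simp [h1, h2]
  intro m
  induction m with
  | zero =>
    intro l hl hm hN
    rcases decomp l hl with ⟨n, rfl⟩ | ⟨n, x, s, rfl, hx, hs⟩
    · exact hrun n hN
    · exfalso
      rw [nt_append] at hm
      rcases hx with rfl | rfl <;> simp [nt] at hm
  | succ m ih =>
    intro l hl hm hN
    rw [T, Finset.mem_union]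
    rcases decomp l hl with ⟨n, rfl⟩ | ⟨n, x, s, rfl, hx, hs⟩
    · exact Or.inl (hrun n hN)
    · right
      rw [nt_append, hnt] at hm
      rw [List.length_append, List.length_cons] at hN
      refine Finset.mem_image.2 ⟨((apath n, x), s), ?_, rfl⟩
      rw [Finset.mem_product, Finset.mem_product]
      refine ⟨⟨hrun n (by omega), ?_⟩, ih s hs ?_ (by omega)⟩
      · rcases hx with rfl | rfl <;> simp
      · rcases hx with rfl | rfl <;> simp [nt] at hm <;> omega

/-- Geodesics of length at most `n` are polynomially many. -/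
theorem geo_count : ∃ M : ℕ, ∀ (n : ℕ) (l : List Ltr), IsGeo l → l.length ≤ n → l ∈ T M n := by
  obtain ⟨M, hM⟩ := geo_nt
  exact ⟨M, fun n l hl hn => mem_T n M l hl.red (hM l hl) hn⟩

end Pool.Agent.Lib.MP_794d84_al
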