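import Mathlib

/-!
The group `H9 R` (a fibre product of three copies of the unitriangular `4 × 4` matrices over `R`).
An element records, for a word in letters `a, b, c`, the exponent sums `a, b, c` and the signed
numbers of scattered subwords `ab, bc, ca, abc, bca, cab`.
-/

set_option autoImplicit false

namespace Pool.Agent.Lib.MP_794d84_al

/-- Nine coordinates. -/
@[ext] structure H9 (R : Type) where
  (a b c ab bc ca abc bca cab : R)

namespace H9

variable {R : Type} [CommRing R]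

instance : Mul (H9 R) where
  mul x y :=
    { a := x.a + y.a
      b := x.b + y.b
      c := x.c + y.c
      ab := x.ab + y.ab + x.a * y.b
      bc := x.bc + y.bc + x.b * y.c
      ca := x.ca + y.ca + x.c * y.a
      abc := x.abc + y.abc + x.ab * y.c + x.a * y.bc
      bca := x.bca + y.bca + x.bc * y.a + x.b * y.ca
      cab := x.cab + y.cab + x.ca * y.b + x.c * y.ab }

instance : One (H9 R) where
  one := ⟨0, 0, 0, 0, 0, 0, 0, 0, 0⟩

instance : Inv (H9 R) where
  inv x :=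
    { a := -x.a
      b := -x.b
      c := -x.c
      ab := -x.ab + x.a * x.b
      bc := -x.bc + x.b * x.c
      ca := -x.ca + x.c * x.a
      abc := -x.abc + x.ab * x.c + x.a * x.bc - x.a * x.b * x.c
      bca := -x.bca + x.bc * x.a + x.b * x.ca - x.b * x.c * x.a
      cab := -x.cab + x.ca * x.b + x.c * x.ab - x.c * x.a * x.b }

@[simp] lemma mul_a (x y : H9 R) : (x * y).a = x.a + y.a := rfl
@[simp] lemma mul_b (x y : H9 R) : (x * y).b = x.b + y.b := rfl
@[simp] lemma mul_c (x y : H9 R) : (x * y).c = x.c + y.c := rfl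
@[simp] lemma mul_ab (x y : H9 R) : (x * y).ab = x.ab + y.ab + x.a * y.b := rfl
@[simp] lemma mul_bc (x y : H9 R) : (x * y).bc = x.bc + y.bc + x.b * y.c := rfl
@[simp] lemma mul_ca (x y : H9 R) : (x * y).ca = x.ca + y.ca + x.c * y.a := rfl
@[simp] lemma mul_abc (x y : H9 R) :
    (x * y).abc = x.abc + y.abc + x.ab * y.c + x.a * y.bc := rfl
@[simp] lemma mul_bca (x y : H9 R) :
    (x * y).bca = x.bca + y.bca + x.bc * y.a + x.b * y.ca := rfl
@[simp] lemma mul_cab (x y : H9 R) :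
    (x * y).cab = x.cab + y.cab + x.ca * y.b + x.c * y.ab := rfl

@[simp] lemma one_a : (1 : H9 R).a = 0 := rfl
@[simp] lemma one_b : (1 : H9 R).b = 0 := rfl
@[simp] lemma one_c : (1 : H9 R).c = 0 := rfl
@[simp] lemma one_ab : (1 : H9 R).ab = 0 := rfl
@[simp] lemma one_bc : (1 : H9 R).bc = 0 := rfl
@[simp] lemma one_ca : (1 : H9 R).ca = 0 := rfl
@[simp] lemma one_abc : (1 : H9 R).abc = 0 := rfl
@[simp] lemma one_bca : (1 : H9 R).bca = 0 := rfl
@[simp] lemma one_cab : (1 : H9 R).cab = 0 := rfl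

@[simp] lemma inv_a (x : H9 R) : (x⁻¹).a = -x.a := rfl
@[simp] lemma inv_b (x : H9 R) : (x⁻¹).b = -x.b := rfl
@[simp] lemma inv_c (x : H9 R) : (x⁻¹).c = -x.c := rfl
@[simp] lemma inv_ab (x : H9 R) : (x⁻¹).ab = -x.ab + x.a * x.b := rfl
@[simp] lemma inv_bc (x : H9 R) : (x⁻¹).bc = -x.bc + x.b * x.c := rfl
@[simp] lemma inv_ca (x : H9 R) : (x⁻¹).ca = -x.ca + x.c * x.a := rfl
@[simp] lemma inv_abc (x : H9 R) :
    (x⁻¹).abc = -x.abc + x.ab * x.c + x.a * x.bc - x.a * x.b * x.c := rfl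
@[simp] lemma inv_bca (x : H9 R) :
    (x⁻¹).bca = -x.bca + x.bc * x.a + x.b * x.ca - x.b * x.c * x.a := rfl
@[simp] lemma inv_cab (x : H9 R) :
    (x⁻¹).cab = -x.cab + x.ca * x.b + x.c * x.ab - x.c * x.a * x.b := rfl

instance : Group (H9 R) :=
  Group.ofLeftAxioms
    (by intro x y z; ext <;> simp <;> ring)
    (by intro x; ext <;> simp)
    (by intro x; ext <;> simp <;> ring)

/-- The letters. -/
def A (n : R) : H9 R := ⟨n, 0, 0, 0, 0, 0, 0, 0, 0⟩
def B (n : R) : H9 R := ⟨0, n, 0, 0, 0, 0, 0, 0, 0⟩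
def C (n : R) : H9 R := ⟨0, 0, n, 0, 0, 0, 0, 0, 0⟩

@[simp] lemma A_a (n : R) : (A n).a = n := rfl
@[simp] lemma A_b (n : R) : (A n).b = 0 := rfl
@[simp] lemma A_c (n : R) : (A n).c = 0 := rfl
@[simp] lemma A_ab (n : R) : (A n).ab = 0 := rfl
@[simp] lemma A_bc (n : R) : (A n).bc = 0 := rfl
@[simp] lemma A_ca (n : R) : (A n).ca = 0 := rfl
@[simp] lemma A_abc (n : R) : (A n).abc = 0 := rfl
@[simp] lemma A_bca (n : R) : (A n).bca = 0 := rfl
@[simp] lemma A_cab (n : R) : (A n).cab = 0 := rfl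
@[simp] lemma B_a (n : R) : (B n).a = 0 := rfl
@[simp] lemma B_b (n : R) : (B n).b = n := rfl
@[simp] lemma B_c (n : R) : (B n).c = 0 := rfl
@[simp] lemma B_ab (n : R) : (B n).ab = 0 := rfl
@[simp] lemma B_bc (n : R) : (B n).bc = 0 := rfl
@[simp] lemma B_ca (n : R) : (B n).ca = 0 := rfl
@[simp] lemma B_abc (n : R) : (B n).abc = 0 := rfl
@[simp] lemma B_bca (n : R) : (B n).bca = 0 := rfl
@[simp] lemma B_cab (n : R) : (B n).cab = 0 := rfl
@[simp] lemma C_a (n : R) : (C n).a = 0 := rfl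
@[simp] lemma C_b (n : R) : (C n).b = 0 := rfl
@[simp] lemma C_c (n : R) : (C n).c = n := rfl
@[simp] lemma C_ab (n : R) : (C n).ab = 0 := rfl
@[simp] lemma C_bc (n : R) : (C n).bc = 0 := rfl
@[simp] lemma C_ca (n : R) : (C n).ca = 0 := rfl
@[simp] lemma C_abc (n : R) : (C n).abc = 0 := rfl
@[simp] lemma C_bca (n : R) : (C n).bca = 0 := rfl
@[simp] lemma C_cab (n : R) : (C n).cab = 0 := rfl

lemma A_zero : A (0 : R) = 1 := by ext <;> simp
lemma B_zero : B (0 : R) = 1 := by ext <;> simp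
lemma C_zero : C (0 : R) = 1 := by ext <;> simp
lemma A_add (m n : R) : A (m + n) = A m * A n := by ext <;> simp
lemma B_add (m n : R) : B (m + n) = B m * B n := by ext <;> simp
lemma C_add (m n : R) : C (m + n) = C m * C n := by ext <;> simp

/-- Cyclic rotation of the letters, `a ↦ b ↦ c ↦ a`. -/
def rot : H9 R ≃* H9 R where
  toFun x := ⟨x.c, x.a, x.b, x.ca, x.ab, x.bc, x.cab, x.abc, x.bca⟩
  invFun x := ⟨x.b, x.c, x.a, x.bc, x.ca, x.ab, x.bca, x.cab, x.abc⟩
  left_inv x := by ext <;> rfl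
  right_inv x := by ext <;> rfl
  map_mul' x y := by ext <;> simp

lemma rot_A (n : R) : rot (A n) = B n := by ext <;> rfl
lemma rot_B (n : R) : rot (B n) = C n := by ext <;> rfl
lemma rot_C (n : R) : rot (C n) = A n := by ext <;> rfl

/-- Functoriality in the ring. -/
def map {R' : Type} [CommRing R'] (f : R →+* R') : H9 R →* H9 R' where
  toFun x := ⟨f x.a, f x.b, f x.c, f x.ab, f x.bc, f x.ca, f x.abc, f x.bca, f x.cab⟩
  map_one' := by ext <;> simp
  map_mul' x y := by ext <;> simp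

lemma map_A {R' : Type} [CommRing R'] (f : R →+* R') (n : R) : map f (A n) = A (f n) := by
  ext <;> simp [map]
lemma map_B {R' : Type} [CommRing R'] (f : R →+* R') (n : R) : map f (B n) = B (f n) := by
  ext <;> simp [map]
lemma map_C {R' : Type} [CommRing R'] (f : R →+* R') (n : R) : map f (C n) = C (f n) := by
  ext <;> simp [map]

end H9

end Pool.Agent.Lib.MP_794d84_al
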