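import Pool.Agent.Lib.MP_794d84_al.Word

/-!
Carathéodory: the number of atoms of each letter can be bounded.
-/

set_option autoImplicit false

namespace Pool.Agent.Lib.MP_794d84_al

open H9 Finset

/-- Basic solutions of a linear program: the same vector with less mass and few atoms. -/
lemma LP {α V : Type} [Fintype α] [AddCommGroup V] [Module ℝ V] [FiniteDimensional ℝ V]
    (p : α → Prop) [DecidablePred p] (v : α → V) (x : α → ℝ) :
    ∃ y : α → ℝ, (∀ i, ¬ p i → y i = x i) ∧ ∑ i, y i • v i = ∑ i, x i • v i ∧
      ∑ i, |y i| ≤ ∑ i, |x i| ∧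
      (univ.filter fun i => p i ∧ y i ≠ 0).card ≤ Module.finrank ℝ V + 1 := by
  classical
  set M : ℝ := ∑ i, if p i then |x i| else 0 with hM
  have hMnn : 0 ≤ M := Finset.sum_nonneg fun i _ => by split_ifs <;> positivity
  rcases hMnn.eq_or_lt with hM0 | hMpos
  · refine ⟨x, fun _ _ => rfl, rfl, le_rfl, ?_⟩
    have h0 : ∀ i, p i → x i = 0 := by
      intro i hi
      have := (Finset.sum_eq_zero_iff_of_nonneg (s := univ)
        (f := fun i => if p i then |x i| else 0)
        (fun i _ => by split_ifs <;> positivity)).1 hM0.symm i (mem_univ i)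
      simpa [hi] using this
    have : (univ.filter fun i => p i ∧ x i ≠ 0) = ∅ := by
      ext i; simp; exact h0 i
    rw [this]; simp
  · -- the vector lies in the convex hull
    have hmem : (∑ i : {i // p i}, (|x i| / M) • ((SignType.sign (x i) : ℝ) • v i)) ∈
        convexHull ℝ (Set.range fun i : {i // p i} => ((SignType.sign (x i) : ℝ) • v i)) := by
      refine (convex_convexHull ℝ _).sum_mem (fun i _ => by positivity) ?_
        (fun i _ => subset_convexHull ℝ _ ⟨i, rfl⟩)
      rw [← Finset.sum_div, div_eq_one_iff_eq hMpos.ne']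
      rw [hM, ← Finset.sum_filter]
      rw [← Finset.sum_subtype (univ.filter p) (by simp) (fun i => |x i|)]
    obtain ⟨ι, _, z, w, hz, haff, hw, hw1, hwz⟩ := eq_pos_convex_span_of_mem_convexHull hmem
    have hcard : Fintype.card ι ≤ Module.finrank ℝ V + 1 := by
      have := haff.card_le_finrank_succ
      refine this.trans ?_
      have := Submodule.finrank_le (vectorSpan ℝ (Set.range z))
      omega
    choose idx hidx using fun k => hz ⟨k, rfl⟩
    -- the new masses
    set c : α → ℝ := fun i => ∑ k, if ((idx k : α) = i) then M * w k else 0 with hc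
    have hcnn : ∀ i, 0 ≤ c i := fun i => Finset.sum_nonneg fun k _ => by
      have := (hw k).le
      split_ifs <;> positivity
    refine ⟨fun i => if p i then c i * (SignType.sign (x i) : ℝ) else x i, ?_, ?_, ?_, ?_⟩
    · intro i hi; simp [hi]
    · have h1 : ∀ i, (if p i then c i * (SignType.sign (x i) : ℝ) else x i) • v i =
          (if p i then c i • ((SignType.sign (x i) : ℝ) • v i) else 0) +
          (if p i then 0 else x i • v i) := by
        intro i; split_ifs <;> simp [mul_smul]
      have h2 : ∀ i, x i • v i =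
          (if p i then x i • v i else 0) + (if p i then 0 else x i • v i) := by
        intro i; split_ifs <;> simp
      rw [Finset.sum_congr rfl fun i _ => h1 i]
      conv_rhs => rw [Finset.sum_congr rfl fun i _ => h2 i]
      rw [Finset.sum_add_distrib, Finset.sum_add_distrib]
      congr 1
      have h3 : ∑ i, (if p i then x i • v i else 0) =
          M • ∑ i : {i // p i}, (|x i| / M) • ((SignType.sign (x i) : ℝ) • v i) := by
        rw [Finset.smul_sum]
        rw [← Finset.sum_filter,
          Finset.sum_subtype (univ.filter p) (p := p) (by simp) (fun i => x i • v i)]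
        refine Finset.sum_congr rfl fun i _ => ?_
        rw [smul_smul, smul_smul]
        congr 1
        rw [mul_div_cancel₀ _ hMpos.ne']
        exact (abs_mul_sign (x i)).symm
      rw [h3, ← hwz, Finset.smul_sum]
      have h4 : ∀ i, (if p i then c i • ((SignType.sign (x i) : ℝ) • v i) else 0) =
          ∑ k, if ((idx k : α) = i) then (M * w k) • ((SignType.sign (x i) : ℝ) • v i) else 0 := by
        intro i
        split_ifs with hi
        · rw [hc]; dsimp only; rw [Finset.sum_smul]
          refine Finset.sum_congr rfl fun k _ => ?_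
          split_ifs <;> simp
        · symm
          refine Finset.sum_eq_zero fun k _ => ?_
          rw [if_neg]
          intro h; exact hi (h ▸ (idx k).2)
      rw [Finset.sum_congr rfl fun i _ => h4 i, Finset.sum_comm]
      refine Finset.sum_congr rfl fun k _ => ?_
      rw [Finset.sum_ite_eq]
      simp only [mem_univ, if_true]
      rw [← hidx k, smul_smul M]
    · have h1 : ∀ i, |if p i then c i * (SignType.sign (x i) : ℝ) else x i| ≤
          (if p i then c i else 0) + (if p i then 0 else |x i|) := by
        intro i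
        split_ifs
        · rw [abs_mul, abs_of_nonneg (hcnn i), add_zero]
          refine mul_le_of_le_one_right (hcnn i) ?_
          rcases lt_trichotomy (x i) 0 with h | h | h <;> simp [h]
        · simp
      have h2 : ∀ i, |x i| =
          (if p i then |x i| else 0) + (if p i then 0 else |x i|) := by
        intro i; split_ifs <;> simp
      refine (Finset.sum_le_sum fun i _ => h1 i).trans ?_
      conv_rhs => rw [Finset.sum_congr rfl fun i _ => h2 i]
      rw [Finset.sum_add_distrib, Finset.sum_add_distrib]
      gcongr ?_ + _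
      rw [← hM]
      have h4 : ∀ i, (if p i then c i else 0) ≤
          ∑ k, if ((idx k : α) = i) then (M * w k) else 0 := by
        intro i
        split_ifs with hi
        · exact le_rfl
        · exact hcnn i
      refine (Finset.sum_le_sum fun i _ => h4 i).trans ?_
      rw [Finset.sum_comm]
      simp [← Finset.mul_sum, hw1]
    · refine le_trans ?_ hcard
      rw [← Finset.card_univ]
      refine le_trans (Finset.card_le_card ?_) (Finset.card_image_le (s := (univ : Finset ι))
        (f := fun k => ((idx k : α))))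
      intro i hi
      simp only [mem_filter, mem_univ, true_and] at hi
      obtain ⟨hpi, hne⟩ := hi
      simp only [hpi, if_true] at hne
      have : c i ≠ 0 := left_ne_zero_of_mul hne
      obtain ⟨k, _, hk⟩ := Finset.exists_ne_zero_of_sum_ne_zero this
      refine Finset.mem_image.2 ⟨k, mem_univ _, ?_⟩
      by_contra h
      simp [h] at hk

/-- The value of a word is affine in the masses of the letter `0`. -/
lemma lin : ∀ (n : ℕ) (l : Fin n → ZMod 3) (x : Fin n → ℝ) (g : H9 ℝ),
    ∃ (v : Fin n → Fin 6 → ℝ) (s : H9 ℝ), (∀ i, l i ≠ 0 → v i = 0) ∧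
      ∀ y : Fin n → ℝ, (∀ i, l i ≠ 0 → y i = x i) →
        g * val (List.ofFn fun i => (l i, y i)) = emb (∑ i, y i • v i) * s := by
  intro n
  induction n with
  | zero =>
    intro l x g
    exact ⟨fun _ => 0, g, fun _ _ => rfl, fun y _ => by simp [emb_zero]⟩
  | succ n ih =>
    intro l x g
    by_cases h0 : l 0 = 0
    · obtain ⟨v, s, hv, h⟩ := ih (fun i => l i.succ) (fun i => x i.succ) g
      refine ⟨Fin.cons (vec g.b g.c g.bc) v, s, ?_, ?_⟩
      · intro i
        refine Fin.cases ?_ (fun i => ?_) i
        · intro h; exact absurd h0 h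
        · intro hi; simpa using hv i hi
      · intro y hy
        rw [List.ofFn_succ, val_cons, Fin.sum_univ_succ]
        simp only [h0, gen_0, Fin.cons_zero, Fin.cons_succ]
        rw [emb_add, ← conj_A, mul_assoc (g * A (y 0) * g⁻¹),
          ← h (fun i => y i.succ) (fun i hi => hy i.succ hi)]
        group
    · obtain ⟨v, s, hv, h⟩ := ih (fun i => l i.succ) (fun i => x i.succ) (g * gen (l 0) (x 0))
      refine ⟨Fin.cons 0 v, s, ?_, ?_⟩
      · intro i
        refine Fin.cases ?_ (fun i => ?_) i
        · intro _; simp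
        · intro hi; simpa using hv i hi
      · intro y hy
        rw [List.ofFn_succ, val_cons, Fin.sum_univ_succ]
        simp only [Fin.cons_zero, Fin.cons_succ, smul_zero, zero_add]
        rw [← h (fun i => y i.succ) (fun i hi => hy i.succ hi), hy 0 h0]
        group

/-- Bounding the number of atoms of the letter `0`. -/
lemma red0 (n : ℕ) (l : Fin n → ZMod 3) (x : Fin n → ℝ) :
    ∃ y : Fin n → ℝ, (∀ i, l i ≠ 0 → y i = x i) ∧
      val (List.ofFn fun i => (l i, y i)) = val (List.ofFn fun i => (l i, x i)) ∧
      ∑ i, |y i| ≤ ∑ i, |x i| ∧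
      (univ.filter fun i => l i = 0 ∧ y i ≠ 0).card ≤ 7 := by
  obtain ⟨v, s, hv, h⟩ := lin n l x 1
  obtain ⟨y, hy1, hy2, hy3, hy4⟩ := LP (fun i => l i = 0) v x
  refine ⟨y, hy1, ?_, hy3, ?_⟩
  · have e1 := h y hy1
    have e2 := h x (fun _ _ => rfl)
    rw [one_mul] at e1 e2
    rw [e1, e2, hy2]
  · simpa using hy4

/-- Bounding the number of atoms of the letter `j`. -/
lemma red (j : ZMod 3) (n : ℕ) (l : Fin n → ZMod 3) (x : Fin n → ℝ) :
    ∃ y : Fin n → ℝ, (∀ i, l i ≠ j → y i = x i) ∧
      val (List.ofFn fun i => (l i, y i)) = val (List.ofFn fun i => (l i, x i)) ∧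
      ∑ i, |y i| ≤ ∑ i, |x i| ∧
      (univ.filter fun i => l i = j ∧ y i ≠ 0).card ≤ 7 := by
  obtain rfl | rfl | rfl := zmod3_cases j
  · exact red0 n l x
  · obtain ⟨y, hy1, hy2, hy3, hy4⟩ := red0 n (fun i => l i - 1) x
    refine ⟨y, fun i hi => hy1 i (sub_ne_zero.2 hi), ?_, hy3, ?_⟩
    · have := congrArg rot hy2
      rw [rot_val, rot_val, List.map_ofFn, List.map_ofFn] at this
      simpa [Function.comp_def] using this
    · simpa [sub_eq_zero] using hy4
  · obtain ⟨y, hy1, hy2, hy3, hy4⟩ := red0 n (fun i => l i - 2) x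
    refine ⟨y, fun i hi => hy1 i (sub_ne_zero.2 hi), ?_, hy3, ?_⟩
    · have := congrArg (fun t => rot (rot t)) hy2
      simp only [rot_val, List.map_ofFn] at this
      have e : (1 : ZMod 3) + 1 = 2 := by decide
      simpa [Function.comp_def, add_assoc, e] using this
    · simpa [sub_eq_zero] using hy4

/-- Every real word has the same value as a word with at most `21` atoms and no more mass. -/
lemma red_fn (n : ℕ) (l : Fin n → ZMod 3) (x : Fin n → ℝ) :
    ∃ y : Fin n → ℝ,
      val (List.ofFn fun i => (l i, y i)) = val (List.ofFn fun i => (l i, x i)) ∧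
      ∑ i, |y i| ≤ ∑ i, |x i| ∧
      (univ.filter fun i => y i ≠ 0).card ≤ 21 := by
  obtain ⟨y0, a1, a2, a3, a4⟩ := red 0 n l x
  obtain ⟨y1, b1, b2, b3, b4⟩ := red 1 n l y0
  obtain ⟨y2, c1, c2, c3, c4⟩ := red 2 n l y1
  have h01 : (0 : ZMod 3) ≠ 1 := by decide
  have h02 : (0 : ZMod 3) ≠ 2 := by decide
  have h12 : (1 : ZMod 3) ≠ 2 := by decide
  refine ⟨y2, c2.trans (b2.trans a2), c3.trans (b3.trans a3), ?_⟩
  have hsub : (univ.filter fun i => y2 i ≠ 0) ⊆
      (univ.filter fun i => l i = 0 ∧ y0 i ≠ 0) ∪ ((univ.filter fun i => l i = 1 ∧ y1 i ≠ 0) ∪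
        (univ.filter fun i => l i = 2 ∧ y2 i ≠ 0)) := by
    intro i hi
    simp only [mem_filter, mem_univ, true_and, mem_union] at hi ⊢
    rcases zmod3_cases (l i) with h | h | h
    · left
      refine ⟨h, ?_⟩
      rw [c1 i (by rw [h]; exact h02), b1 i (by rw [h]; exact h01)] at hi
      exact hi
    · right; left
      refine ⟨h, ?_⟩
      rw [c1 i (by rw [h]; exact h12)] at hi
      exact hi
    · right; right; exact ⟨h, hi⟩
  refine (Finset.card_le_card hsub).trans ((Finset.card_union_le _ _).trans ?_)
  have := Finset.card_union_le (univ.filter fun i => l i = 1 ∧ y1 i ≠ 0)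
    (univ.filter fun i => l i = 2 ∧ y2 i ≠ 0)
  omega

/-- The cost of a word. -/
def cost {R : Type} [CommRing R] [LinearOrder R] (w : List (ZMod 3 × R)) : R :=
  (w.map fun s => |s.2|).sum

lemma cost_nil {R : Type} [CommRing R] [LinearOrder R] :
    cost ([] : List (ZMod 3 × R)) = 0 := rfl
lemma cost_cons {R : Type} [CommRing R] [LinearOrder R] (s : ZMod 3 × R)
    (w : List (ZMod 3 × R)) : cost (s :: w) = |s.2| + cost w := by simp [cost]
lemma cost_append {R : Type} [CommRing R] [LinearOrder R]
    (v w : List (ZMod 3 × R)) : cost (v ++ w) = cost v + cost w := by simp [cost]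
lemma cost_nonneg {R : Type} [CommRing R] [LinearOrder R] [IsStrictOrderedRing R]
    (w : List (ZMod 3 × R)) : 0 ≤ cost w := by
  induction w with
  | nil => exact le_rfl
  | cons s w ih => rw [cost_cons]; positivity

lemma val_filter (w : List (ZMod 3 × ℝ)) : val (w.filter fun s => s.2 ≠ 0) = val w := by
  induction w with
  | nil => rfl
  | cons s w ih =>
    rw [List.filter_cons]
    split_ifs with h
    · rw [val_cons, ih, val_cons]
    · have : s.2 = 0 := by simpa using h
      rw [val_cons, this, ih]; simp

lemma cost_filter (w : List (ZMod 3 × ℝ)) : cost (w.filter fun s => s.2 ≠ 0) = cost w := by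
  induction w with
  | nil => rfl
  | cons s w ih =>
    rw [List.filter_cons]
    split_ifs with h
    · rw [cost_cons, ih, cost_cons]
    · have : s.2 = 0 := by simpa using h
      rw [cost_cons, this, ih]; simp

lemma cost_ofFn (n : ℕ) (l : Fin n → ZMod 3) (x : Fin n → ℝ) :
    cost (List.ofFn fun i => (l i, x i)) = ∑ i, |x i| := by
  simp [cost, List.map_ofFn, List.sum_ofFn, Function.comp_def]

/-- Every real word has the same value as a word with at most `21` syllables and no more mass. -/
lemma red_word (w : List (ZMod 3 × ℝ)) :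
    ∃ q : List (ZMod 3 × ℝ), val q = val w ∧ cost q ≤ cost w ∧ q.length ≤ 21 := by
  obtain ⟨y, h1, h2, h3⟩ := red_fn w.length (fun i => w[i].1) (fun i => w[i].2)
  have hw : (List.ofFn fun i : Fin w.length => ((w[i].1, w[i].2) : ZMod 3 × ℝ)) = w := by
    have : (fun i : Fin w.length => ((w[i].1, w[i].2) : ZMod 3 × ℝ)) = w.get := by
      funext i; rfl
    rw [this, List.ofFn_get]
  refine ⟨(List.ofFn fun i : Fin w.length => ((w[i].1, y i) : ZMod 3 × ℝ)).filter
    fun s => s.2 ≠ 0, ?_, ?_, ?_⟩
  · rw [val_filter, h1, hw]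
  · rw [cost_filter, cost_ofFn]
    refine h2.trans ?_
    rw [← cost_ofFn, hw]
  · refine le_trans (le_of_eq ?_) h3
    rw [List.ofFn_eq_map, List.filter_map, List.length_map]
    rfl

end Pool.Agent.Lib.MP_794d84_al
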