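import Pool.Agent.Lib.MP_794d84_al.Round

/-!
The Main Lemma: every integral word has the same value as a word with a bounded number of
syllables whose cost exceeds the cost of the given word by a bounded amount.
-/

set_option autoImplicit false

namespace Pool.Agent.Lib.MP_794d84_al

open H9

/-- `Good K u`: every `emb (m • u)` is, up to a bounded error, the value of an integral word with
at most `K` syllables and cost at most `|m| + K`. -/
def Good (K : ℕ) (u : Fin 6 → ℝ) : Prop :=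
  ∀ m : ℝ, ∃ (W : List (ZMod 3 × ℤ)) (X : Fin 6 → ℝ), (∀ i, |X i| ≤ K) ∧
    emb (m • u) = toR (val W) * emb X ∧ W.length ≤ K ∧ ((cost W : ℤ) : ℝ) ≤ |m| + K

lemma Good.mix {K L : ℕ} {u v : Fin 6 → ℝ} (hu : Good K u) (hv : Good L v) {t : ℝ}
    (h0 : 0 ≤ t) (h1 : t ≤ 1) : Good (K + L) ((1 - t) • u + t • v) := by
  intro m
  obtain ⟨W1, X1, a1, a2, a3, a4⟩ := hu (m * (1 - t))
  obtain ⟨W2, X2, b1, b2, b3, b4⟩ := hv (m * t)
  refine ⟨W1 ++ W2, X1 + X2, ?_, ?_, ?_, ?_⟩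
  · intro i
    push_cast
    exact (abs_add_le _ _).trans (add_le_add (a1 i) (b1 i))
  · have hcomm : toR (val W2) * emb X1 = emb X1 * toR (val W2) := by
      have : toR (val W2) = emb ((m * t) • v) * emb (-X2) := by
        rw [b2, mul_assoc, ← emb_add]; simp [emb_zero]
      rw [this, ← emb_add, emb_comm]
    have e : m • ((1 - t) • u + t • v) = (m * (1 - t)) • u + (m * t) • v := by
      rw [smul_add, smul_smul, smul_smul]
    rw [e, emb_add, a2, b2, val_append, map_mul, emb_add]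
    calc toR (val W1) * emb X1 * (toR (val W2) * emb X2)
        = toR (val W1) * (emb X1 * toR (val W2)) * emb X2 := by group
      _ = toR (val W1) * (toR (val W2) * emb X1) * emb X2 := by rw [hcomm]
      _ = _ := by group
  · simp; omega
  · rw [cost_append]
    push_cast
    have e1 : |m * (1 - t)| = |m| * (1 - t) := by
      rw [abs_mul, abs_of_nonneg (by linarith : 0 ≤ 1 - t)]
    have e2 : |m * t| = |m| * t := by
      rw [abs_mul, abs_of_nonneg h0]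
    rw [e1] at a4
    rw [e2] at b4
    linarith

lemma length_invw {R : Type} [CommRing R] (w : List (ZMod 3 × R)) :
    (invw w).length = w.length := by simp [invw]

lemma cost_invw (w : List (ZMod 3 × ℤ)) : cost (invw w) = cost w := by
  simp [invw, cost, List.map_reverse, List.sum_reverse, Function.comp_def]

lemma good_int {g : H9 ℤ} (hg : Rel g) : ∃ K : ℕ, Good K (vec (g.b : ℝ) g.c g.bc) := by
  obtain ⟨w, hw⟩ := exists_word hg
  obtain ⟨M, hM⟩ : ∃ M : ℕ, ∀ i, |vec (g.b : ℝ) g.c g.bc i| ≤ M := by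
    refine ⟨∑ i, ⌈|vec (g.b : ℝ) g.c g.bc i|⌉₊, fun i => (Nat.le_ceil _).trans ?_⟩
    exact_mod_cast Finset.single_le_sum (f := fun i => ⌈|vec (g.b : ℝ) g.c g.bc i|⌉₊)
      (fun _ _ => Nat.zero_le _) (Finset.mem_univ i)
  have hc := cost_nonneg w
  refine ⟨M + 2 * w.length + 2 * (cost w).toNat + 1, ?_⟩
  intro m
  refine ⟨w ++ [(0, ⌊m⌋)] ++ invw w, Int.fract m • vec (g.b : ℝ) g.c g.bc, ?_, ?_, ?_, ?_⟩
  · intro i
    rw [Pi.smul_apply, smul_eq_mul, abs_mul, abs_of_nonneg (Int.fract_nonneg m)]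
    have h1 := hM i
    have h2 := (Int.fract_lt_one m).le
    have h3 : Int.fract m * |vec (g.b : ℝ) g.c g.bc i| ≤ 1 * |vec (g.b : ℝ) g.c g.bc i| :=
      mul_le_mul_of_nonneg_right h2 (abs_nonneg _)
    push_cast
    have h4 : (0 : ℝ) ≤ w.length := Nat.cast_nonneg _
    have h5 : (0 : ℝ) ≤ (cost w).toNat := Nat.cast_nonneg _
    linarith
  · have h := conj_A (toR g)
    simp only [toR_b, toR_c, toR_bc] at h
    rw [val_append, val_append, val_invw, hw]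
    simp only [val_cons, val_nil, gen_0, mul_one, map_mul, map_inv, toR_A]
    rw [← h, ← h]
    have : (A m : H9 ℝ) = A ((⌊m⌋ : ℝ)) * A (Int.fract m) := by
      rw [← A_add, Int.floor_add_fract]
    rw [this]
    group
  · simp [length_invw]; omega
  · rw [cost_append, cost_append, cost_invw, cost_cons, cost_nil]
    have h1 : |((⌊m⌋ : ℤ) : ℝ)| ≤ |m| + 1 := by
      rw [abs_le]
      constructor
      · have := Int.sub_one_lt_floor m
        have := neg_abs_le m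
        linarith
      · have := Int.floor_le m
        have := le_abs_self m
        linarith
    have h2 : (((cost w).toNat : ℕ) : ℝ) = ((cost w : ℤ) : ℝ) := by
      exact_mod_cast congrArg (Int.cast : ℤ → ℝ) (Int.toNat_of_nonneg hc)
    push_cast
    rw [h2]
    have h4 : (0 : ℝ) ≤ w.length := Nat.cast_nonneg _
    have h5 : (0 : ℝ) ≤ M := Nat.cast_nonneg _
    linarith

lemma Good.mono {K L : ℕ} (h : K ≤ L) {u : Fin 6 → ℝ} (hu : Good K u) : Good L u := by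
  intro m
  obtain ⟨W, X, h1, h2, h3, h4⟩ := hu m
  have : (K : ℝ) ≤ L := by exact_mod_cast h
  exact ⟨W, X, fun i => (h1 i).trans this, h2, h3.trans h, h4.trans (by linarith)⟩

lemma good_all : ∃ K : ℕ, ∀ x y p : ℝ, 0 ≤ x → x ≤ 1 → 0 ≤ y → y ≤ 1 → 0 ≤ p → p ≤ 1 →
    Good K (vec x y p) := by
  -- the corners
  have hcorner : ∀ x y p : ℤ, ∃ K : ℕ, Good K (vec (x : ℝ) y p) := by
    intro x y p
    obtain ⟨K, hK⟩ := good_int (g := ⟨0, x, y, 0, p, 0, 0, 0, 0⟩) (by simp [Rel])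
    exact ⟨K, hK⟩
  obtain ⟨K0, hK0⟩ : ∃ K : ℕ, (∀ x y p : ℝ, (x = 0 ∨ x = 1) → (y = 0 ∨ y = 1) →
      (p = 0 ∨ p = 1) → Good K (vec x y p)) := by
    obtain ⟨k1, h1⟩ := hcorner 0 0 0
    obtain ⟨k2, h2⟩ := hcorner 0 0 1
    obtain ⟨k3, h3⟩ := hcorner 0 1 0
    obtain ⟨k4, h4⟩ := hcorner 0 1 1
    obtain ⟨k5, h5⟩ := hcorner 1 0 0
    obtain ⟨k6, h6⟩ := hcorner 1 0 1
    obtain ⟨k7, h7⟩ := hcorner 1 1 0
    obtain ⟨k8, h8⟩ := hcorner 1 1 1
    simp only [Int.cast_zero, Int.cast_one] at h1 h2 h3 h4 h5 h6 h7 h8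
    refine ⟨k1 + k2 + k3 + k4 + k5 + k6 + k7 + k8, ?_⟩
    rintro x y p (rfl | rfl) (rfl | rfl) (rfl | rfl)
    · exact h1.mono (by omega)
    · exact h2.mono (by omega)
    · exact h3.mono (by omega)
    · exact h4.mono (by omega)
    · exact h5.mono (by omega)
    · exact h6.mono (by omega)
    · exact h7.mono (by omega)
    · exact h8.mono (by omega)
  have s1 : ∀ x y p : ℝ, (x = 0 ∨ x = 1) → (y = 0 ∨ y = 1) → 0 ≤ p → p ≤ 1 →
      Good (K0 + K0) (vec x y p) := by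
    intro x y p hx hy hp hp'
    have := (hK0 x y 0 hx hy (Or.inl rfl)).mix (hK0 x y 1 hx hy (Or.inr rfl)) hp hp'
    convert this using 1
    funext i
    fin_cases i <;> simp [vec] <;> ring
  have s2 : ∀ x y p : ℝ, (x = 0 ∨ x = 1) → 0 ≤ y → y ≤ 1 → 0 ≤ p → p ≤ 1 →
      Good (K0 + K0 + (K0 + K0)) (vec x y p) := by
    intro x y p hx hy hy' hp hp'
    have := (s1 x 0 p hx (Or.inl rfl) hp hp').mix (s1 x 1 p hx (Or.inr rfl) hp hp') hy hy'
    convert this using 1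
    funext i
    fin_cases i <;> simp [vec] <;> ring
  refine ⟨K0 + K0 + (K0 + K0) + (K0 + K0 + (K0 + K0)), ?_⟩
  intro x y p hx hx' hy hy' hp hp'
  have := (s2 0 y p (Or.inl rfl) hy hy' hp hp').mix (s2 1 y p (Or.inr rfl) hy hy' hp hp') hx hx'
  convert this using 1
  funext i
  fin_cases i <;> simp [vec] <;> ring

/-- The conditions on the error that are needed to move it past a letter. -/
structure Box (x : H9 ℝ) : Prop where
  a : 0 ≤ x.a ∧ x.a ≤ 1
  b : 0 ≤ x.b ∧ x.b ≤ 1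
  c : 0 ≤ x.c ∧ x.c ≤ 1
  ab : 0 ≤ x.ab ∧ x.ab ≤ 1
  bc : 0 ≤ x.bc ∧ x.bc ≤ 1
  ca : 0 ≤ x.ca ∧ x.ca ≤ 1
  bdd : Bdd 10 x

lemma Dom.box {x : H9 ℝ} (h : Dom x) : Box x :=
  ⟨⟨h.a.1, h.a.2.le⟩, ⟨h.b.1, h.b.2.le⟩, ⟨h.c.1, h.c.2.le⟩, ⟨h.ab.1, h.ab.2.le⟩,
    ⟨h.bc.1, h.bc.2.le⟩, ⟨h.ca.1, h.ca.2.le⟩, h.bdd⟩

/-- Moving the error past a letter. -/
def Step (j : ZMod 3) (K : ℕ) : Prop :=
  ∀ E : H9 ℝ, Box E → ∀ m : ℝ, ∃ (W : List (ZMod 3 × ℤ)) (X : H9 ℝ),
    E * gen j m = toR (val W) * X ∧ Bdd K X ∧ W.length ≤ K ∧ ((cost W : ℤ) : ℝ) ≤ |m| + K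

lemma step0 : ∃ K : ℕ, Step 0 K := by
  obtain ⟨K, hK⟩ := good_all
  refine ⟨K + 10 + 2 * (K * 10), ?_⟩
  intro E hE m
  obtain ⟨W, X, h1, h2, h3, h4⟩ := hK E.b E.c E.bc hE.b.1 hE.b.2 hE.c.1 hE.c.2 hE.bc.1 hE.bc.2 m
  have hb : Bdd K (emb X) := by
    have h0 : (0 : ℝ) ≤ K := Nat.cast_nonneg _
    constructor <;> simp [emb, h1]
  refine ⟨W, emb X * E, ?_, ?_, ?_, ?_⟩
  · rw [← mul_assoc, ← h2, ← conj_A]
    simp
  · have := hb.mul hE.bdd
    push_cast
    exact this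
  · omega
  · refine h4.trans ?_
    push_cast
    have h0 : (0 : ℝ) ≤ K := Nat.cast_nonneg _
    linarith

lemma Step.mono {j : ZMod 3} {K L : ℕ} (h : K ≤ L) (hs : Step j K) : Step j L := by
  intro E hE m
  obtain ⟨W, X, h1, h2, h3, h4⟩ := hs E hE m
  have hKL : (K : ℝ) ≤ L := by exact_mod_cast h
  refine ⟨W, X, h1, ?_, h3.trans h, h4.trans (by linarith)⟩
  exact ⟨h2.a.trans hKL, h2.b.trans hKL, h2.c.trans hKL, h2.ab.trans hKL, h2.bc.trans hKL,
    h2.ca.trans hKL, h2.abc.trans hKL, h2.bca.trans hKL, h2.cab.trans hKL⟩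

lemma toR_rot (x : H9 ℤ) : toR (rot x) = rot (toR x) := rfl

lemma Step.rot {j : ZMod 3} {K : ℕ} (hs : Step j K) : Step (j + 1) K := by
  intro E hE m
  have hE' : Box (H9.rot.symm E) :=
    ⟨hE.b, hE.c, hE.a, hE.bc, hE.ca, hE.ab, ⟨hE.bdd.b, hE.bdd.c, hE.bdd.a, hE.bdd.bc, hE.bdd.ca,
      hE.bdd.ab, hE.bdd.bca, hE.bdd.cab, hE.bdd.abc⟩⟩
  obtain ⟨W, X, h1, h2, h3, h4⟩ := hs _ hE' m
  refine ⟨W.map fun s => (s.1 + 1, s.2), H9.rot X, ?_, ?_, ?_, ?_⟩
  · have := congrArg H9.rot h1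
    rw [map_mul, map_mul, rot_gen, ← toR_rot, rot_val, MulEquiv.apply_symm_apply] at this
    exact this
  · exact ⟨h2.c, h2.a, h2.b, h2.ca, h2.ab, h2.bc, h2.cab, h2.abc, h2.bca⟩
  · simpa using h3
  · have : cost (W.map fun s => (s.1 + 1, s.2)) = cost W := by
      simp [cost, Function.comp_def]
    rw [this]; exact h4

lemma step_all : ∃ K : ℕ, ∀ j, Step j K := by
  obtain ⟨K, hK⟩ := step0
  refine ⟨K, fun j => ?_⟩
  obtain rfl | rfl | rfl := zmod3_cases j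
  · exact hK
  · simpa using hK.rot
  · have e : (0 : ZMod 3) + 1 + 1 = 2 := by decide
    have := hK.rot.rot
    rwa [e] at this

lemma step_dom : ∃ K : ℕ, ∀ (j : ZMod 3) (E : H9 ℝ), Dom E → ∀ m : ℝ,
    ∃ (W : List (ZMod 3 × ℤ)) (E' : H9 ℝ), Dom E' ∧
    E * gen j m = toR (val W) * E' ∧ W.length ≤ K ∧ ((cost W : ℤ) : ℝ) ≤ |m| + K := by
  obtain ⟨K, hK⟩ := step_all
  obtain ⟨N, hN⟩ := exists_word_bdd
    ((K : ℝ) + (10 + 2 * (10 * 10) + 10 * 10 * 10) +
      2 * ((K : ℝ) * (10 + 2 * (10 * 10) + 10 * 10 * 10)))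
  refine ⟨K + N, ?_⟩
  intro j E hE m
  obtain ⟨W, X, h1, h2, h3, h4⟩ := hK j E hE.box m
  have hX : Rel X := by
    have : X = (toR (val W))⁻¹ * (E * gen j m) := by rw [h1]; group
    rw [this]
    exact (Rel.val W).toR.inv.mul (hE.rel.mul (Rel.gen _ _))
  obtain ⟨g, e, g1, g2, g3⟩ := exists_dom hX
  have hg0 : toR g = X * e⁻¹ := by rw [g3]; group
  have hg := h2.mul g2.bdd.inv
  rw [← hg0] at hg
  obtain ⟨w, w1, w2, w3⟩ := hN g g1 hg
  refine ⟨W ++ w, e, g2, ?_, ?_, ?_⟩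
  · rw [h1, g3, val_append, map_mul, w1]; group
  · simp; omega
  · rw [cost_append]
    push_cast
    have : ((cost w : ℤ) : ℝ) ≤ N := by exact_mod_cast w3
    linarith

lemma round_word : ∃ K : ℕ, ∀ (q : List (ZMod 3 × ℝ)) (E : H9 ℝ), Dom E →
    ∃ (W : List (ZMod 3 × ℤ)) (E' : H9 ℝ), Dom E' ∧
    E * val q = toR (val W) * E' ∧ W.length ≤ K * q.length ∧
      ((cost W : ℤ) : ℝ) ≤ cost q + K * q.length := by
  obtain ⟨K, hK⟩ := step_dom
  refine ⟨K, ?_⟩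
  intro q
  induction q with
  | nil =>
    intro E hE
    exact ⟨[], E, hE, by simp, by simp, by simp [cost_nil]⟩
  | cons s q ih =>
    intro E hE
    obtain ⟨W1, E1, a1, a2, a3, a4⟩ := hK s.1 E hE s.2
    obtain ⟨W2, E2, b1, b2, b3, b4⟩ := ih E1 a1
    refine ⟨W1 ++ W2, E2, b1, ?_, ?_, ?_⟩
    · rw [val_cons, ← mul_assoc, a2, mul_assoc, b2, val_append, map_mul, mul_assoc]
    · rw [List.length_append, List.length_cons, mul_add]; omega
    · rw [cost_append, cost_cons, List.length_cons]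
      push_cast
      linarith

lemma dom_one : Dom 1 := by
  constructor <;> simp [Rel]

lemma dom_int {g : H9 ℤ} (h : Dom (toR g)) : g = 1 := by
  have key : ∀ n : ℤ, (0 ≤ (n : ℝ) ∧ (n : ℝ) < 1) → n = 0 := by
    rintro n ⟨h1, h2⟩
    have h1' : (0 : ℤ) ≤ n := by exact_mod_cast h1
    have h2' : n < 1 := by exact_mod_cast h2
    omega
  have ha := key _ h.a
  have hb := key _ h.b
  have hc := key _ h.c
  have hab := key _ h.ab
  have hbc := key _ h.bc
  have hca := key _ h.ca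
  have habc := key _ h.abc
  have hbca := key _ h.bca
  have hcab : g.cab = 0 := by
    have := h.rel
    unfold Rel at this
    simp only [toR_a, toR_b, toR_c, toR_ab, toR_bc, toR_ca, toR_abc, toR_bca, toR_cab, ha, hb,
      hc, hab, hbc, hca, habc, hbca] at this
    simpa using this
  ext <;> simp [ha, hb, hc, hab, hbc, hca, habc, hbca, hcab]

lemma cost_mapw (w : List (ZMod 3 × ℤ)) :
    cost (mapw (Int.castRingHom ℝ) w) = ((cost w : ℤ) : ℝ) := by
  induction w with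
  | nil => simp [mapw, cost]
  | cons s w ih =>
    have : mapw (Int.castRingHom ℝ) (s :: w) = (s.1, (s.2 : ℝ)) :: mapw (Int.castRingHom ℝ) w := by
      simp [mapw]
    rw [this, cost_cons, ih, cost_cons]
    push_cast
    rfl

/-- The Main Lemma. -/
theorem main_lemma : ∃ K : ℕ, ∀ w : List (ZMod 3 × ℤ), ∃ w' : List (ZMod 3 × ℤ),
    val w' = val w ∧ cost w' ≤ cost w + K ∧ w'.length ≤ K := by
  obtain ⟨K, hK⟩ := round_word
  refine ⟨K * 21, fun w => ?_⟩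
  obtain ⟨q, q1, q2, q3⟩ := red_word (mapw (Int.castRingHom ℝ) w)
  obtain ⟨W, E, a1, a2, a3, a4⟩ := hK q 1 dom_one
  have hE : E = toR ((val W)⁻¹ * val w) := by
    have e1 : E = (toR (val W))⁻¹ * val q := by
      rw [one_mul] at a2; rw [a2]; group
    rw [e1, q1, map_mul, map_inv, toR, map_val, map_val]
  have h1 : (val W)⁻¹ * val w = 1 := dom_int (hE ▸ a1)
  refine ⟨W, ?_, ?_, ?_⟩
  · exact (inv_mul_eq_one.1 h1)
  · rw [cost_mapw] at q2
    have hK0 : (0 : ℝ) ≤ K := Nat.cast_nonneg _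
    have h3 : ((q.length : ℕ) : ℝ) ≤ 21 := by exact_mod_cast q3
    have h4 : (K : ℝ) * q.length ≤ K * 21 := mul_le_mul_of_nonneg_left h3 hK0
    have : ((cost W : ℤ) : ℝ) ≤ cost w + ((K * 21 : ℕ) : ℝ) := by
      push_cast; linarith
    exact_mod_cast this
  · exact a3.trans (Nat.mul_le_mul_left _ q3)

end Pool.Agent.Lib.MP_794d84_al
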