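import Pool.Agent.Lib.MP_794d84_al.Lin

/-!
Rounding real words to integral words at bounded cost.
-/

set_option autoImplicit false

namespace Pool.Agent.Lib.MP_794d84_al

open H9

/-- The embedding of the integral group in the real one. -/
def toR : H9 ℤ →* H9 ℝ := map (Int.castRingHom ℝ)

lemma toR_def (x : H9 ℤ) : toR x =
    ⟨(x.a : ℝ), x.b, x.c, x.ab, x.bc, x.ca, x.abc, x.bca, x.cab⟩ := rfl

@[simp] lemma toR_a (x : H9 ℤ) : (toR x).a = (x.a : ℝ) := rfl
@[simp] lemma toR_b (x : H9 ℤ) : (toR x).b = (x.b : ℝ) := rfl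
@[simp] lemma toR_c (x : H9 ℤ) : (toR x).c = (x.c : ℝ) := rfl
@[simp] lemma toR_ab (x : H9 ℤ) : (toR x).ab = (x.ab : ℝ) := rfl
@[simp] lemma toR_bc (x : H9 ℤ) : (toR x).bc = (x.bc : ℝ) := rfl
@[simp] lemma toR_ca (x : H9 ℤ) : (toR x).ca = (x.ca : ℝ) := rfl
@[simp] lemma toR_abc (x : H9 ℤ) : (toR x).abc = (x.abc : ℝ) := rfl
@[simp] lemma toR_bca (x : H9 ℤ) : (toR x).bca = (x.bca : ℝ) := rfl
@[simp] lemma toR_cab (x : H9 ℤ) : (toR x).cab = (x.cab : ℝ) := rfl

lemma toR_injective : Function.Injective toR := by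
  intro x y h
  have h1 := congrArg H9.a h
  have h2 := congrArg H9.b h
  have h3 := congrArg H9.c h
  have h4 := congrArg H9.ab h
  have h5 := congrArg H9.bc h
  have h6 := congrArg H9.ca h
  have h7 := congrArg H9.abc h
  have h8 := congrArg H9.bca h
  have h9 := congrArg H9.cab h
  simp only [toR_a, toR_b, toR_c, toR_ab, toR_bc, toR_ca, toR_abc, toR_bca, toR_cab,
    Int.cast_inj] at h1 h2 h3 h4 h5 h6 h7 h8 h9
  ext <;> assumption

lemma toR_A (n : ℤ) : toR (A n) = A (n : ℝ) := map_A _ n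

lemma Rel.toR {x : H9 ℤ} (hx : Rel x) : Rel (toR x) := Rel.map _ hx

/-- All coordinates are bounded by `K`. -/
structure Bdd (K : ℝ) (x : H9 ℝ) : Prop where
  a : |x.a| ≤ K
  b : |x.b| ≤ K
  c : |x.c| ≤ K
  ab : |x.ab| ≤ K
  bc : |x.bc| ≤ K
  ca : |x.ca| ≤ K
  abc : |x.abc| ≤ K
  bca : |x.bca| ≤ K
  cab : |x.cab| ≤ K

private lemma absmul {x y K L : ℝ} (hx : |x| ≤ K) (hy : |y| ≤ L) : |x * y| ≤ K * L := by
  rw [abs_mul]
  exact mul_le_mul hx hy (abs_nonneg _) ((abs_nonneg _).trans hx)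

lemma Bdd.nonneg {K : ℝ} {x : H9 ℝ} (h : Bdd K x) : 0 ≤ K := (abs_nonneg _).trans h.a

private lemma abs3 {x y z K L M : ℝ} (hx : |x| ≤ K) (hy : |y| ≤ L) (hz : |z| ≤ M) :
    |x + y + z| ≤ K + L + M :=
  (abs_add_three _ _ _).trans (by linarith)

private lemma abs4 {x y z t K L M N : ℝ} (hx : |x| ≤ K) (hy : |y| ≤ L) (hz : |z| ≤ M)
    (ht : |t| ≤ N) : |x + y + z + t| ≤ K + L + M + N :=
  (abs_add_le _ _).trans (by linarith [abs3 hx hy hz])

lemma Bdd.mul {K L : ℝ} {x y : H9 ℝ} (hx : Bdd K x) (hy : Bdd L y) :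
    Bdd (K + L + 2 * (K * L)) (x * y) := by
  have hK := hx.nonneg
  have hL := hy.nonneg
  have hKL := mul_nonneg hK hL
  constructor
  · exact (abs_add_le _ _).trans (by linarith [hx.a, hy.a])
  · exact (abs_add_le _ _).trans (by linarith [hx.b, hy.b])
  · exact (abs_add_le _ _).trans (by linarith [hx.c, hy.c])
  · exact (abs3 hx.ab hy.ab (absmul hx.a hy.b)).trans (by linarith)
  · exact (abs3 hx.bc hy.bc (absmul hx.b hy.c)).trans (by linarith)
  · exact (abs3 hx.ca hy.ca (absmul hx.c hy.a)).trans (by linarith)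
  · exact (abs4 hx.abc hy.abc (absmul hx.ab hy.c) (absmul hx.a hy.bc)).trans (by linarith)
  · exact (abs4 hx.bca hy.bca (absmul hx.bc hy.a) (absmul hx.b hy.ca)).trans (by linarith)
  · exact (abs4 hx.cab hy.cab (absmul hx.ca hy.b) (absmul hx.c hy.ab)).trans (by linarith)

private lemma absneg {x K : ℝ} (hx : |x| ≤ K) : |-x| ≤ K := by rwa [abs_neg]

lemma Bdd.inv {K : ℝ} {x : H9 ℝ} (hx : Bdd K x) : Bdd (K + 2 * (K * K) + K * K * K) x⁻¹ := by
  have hK := hx.nonneg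
  have hKK := mul_nonneg hK hK
  have hKKK := mul_nonneg hKK hK
  constructor
  · exact (absneg hx.a).trans (by linarith)
  · exact (absneg hx.b).trans (by linarith)
  · exact (absneg hx.c).trans (by linarith)
  · exact (abs_add_le _ _).trans (by linarith [absneg hx.ab, absmul hx.a hx.b])
  · exact (abs_add_le _ _).trans (by linarith [absneg hx.bc, absmul hx.b hx.c])
  · exact (abs_add_le _ _).trans (by linarith [absneg hx.ca, absmul hx.c hx.a])
  · rw [inv_abc, sub_eq_add_neg]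
    exact (abs4 (absneg hx.abc) (absmul hx.ab hx.c) (absmul hx.a hx.bc)
      (absneg (absmul (absmul hx.a hx.b) hx.c))).trans (by linarith)
  · rw [inv_bca, sub_eq_add_neg]
    exact (abs4 (absneg hx.bca) (absmul hx.bc hx.a) (absmul hx.b hx.ca)
      (absneg (absmul (absmul hx.b hx.c) hx.a))).trans (by linarith)
  · rw [inv_cab, sub_eq_add_neg]
    exact (abs4 (absneg hx.cab) (absmul hx.ca hx.b) (absmul hx.c hx.ab)
      (absneg (absmul (absmul hx.c hx.a) hx.b))).trans (by linarith)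

/-- The fundamental domain. -/
structure Dom (x : H9 ℝ) : Prop where
  rel : Rel x
  a : 0 ≤ x.a ∧ x.a < 1
  b : 0 ≤ x.b ∧ x.b < 1
  c : 0 ≤ x.c ∧ x.c < 1
  ab : 0 ≤ x.ab ∧ x.ab < 1
  bc : 0 ≤ x.bc ∧ x.bc < 1
  ca : 0 ≤ x.ca ∧ x.ca < 1
  abc : 0 ≤ x.abc ∧ x.abc < 1
  bca : 0 ≤ x.bca ∧ x.bca < 1

private lemma abs_of_Ico {t : ℝ} (h : 0 ≤ t ∧ t < 1) : |t| ≤ 1 := by
  rw [abs_of_nonneg h.1]; exact h.2.le

lemma Dom.bdd {x : H9 ℝ} (h : Dom x) : Bdd 10 x := by
  have h1 := abs_of_Ico h.a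
  have h2 := abs_of_Ico h.b
  have h3 := abs_of_Ico h.c
  have h4 := abs_of_Ico h.ab
  have h5 := abs_of_Ico h.bc
  have h6 := abs_of_Ico h.ca
  have h7 := abs_of_Ico h.abc
  have h8 := abs_of_Ico h.bca
  refine ⟨by linarith, by linarith, by linarith, by linarith, by linarith, by linarith,
    by linarith, by linarith, ?_⟩
  have hr : x.cab = x.a * x.bc + x.b * x.ca + x.c * x.ab + (-(x.a * x.b * x.c) + -x.abc +
      -x.bca) := by
    have := h.rel
    unfold Rel at this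
    linear_combination this
  rw [hr]
  refine (abs4 (absmul h1 h5) (absmul h2 h6) (absmul h3 h4)
    (abs3 (absneg (absmul (absmul h1 h2) h3)) (absneg h7) (absneg h8))).trans (by norm_num)

private lemma floor_Ico (t : ℝ) : 0 ≤ t - ⌊t⌋ ∧ t - ⌊t⌋ < 1 := by
  constructor
  · linarith [Int.floor_le t]
  · linarith [Int.lt_floor_add_one t]

/-- Reduction to the fundamental domain. -/
lemma exists_dom {x : H9 ℝ} (hx : Rel x) :
    ∃ (g : H9 ℤ) (e : H9 ℝ), Rel g ∧ Dom e ∧ x = toR g * e := by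
  set g1 : H9 ℤ := A ⌊x.a⌋ * B ⌊x.b⌋ * C ⌊x.c⌋ with hg1
  set y : H9 ℝ := (toR g1)⁻¹ * x with hy
  set g2 : H9 ℤ := ⟨0, 0, 0, ⌊y.ab⌋, ⌊y.bc⌋, ⌊y.ca⌋, 0, 0, 0⟩ with hg2
  set z : H9 ℝ := (toR g2)⁻¹ * y with hz
  set g3 : H9 ℤ := ⟨0, 0, 0, 0, 0, 0, ⌊z.abc⌋, ⌊z.bca⌋, -⌊z.abc⌋ - ⌊z.bca⌋⟩ with hg3
  have r1 : Rel g1 := by
    have h1 := Rel.gen 0 ⌊x.a⌋
    have h2 := Rel.gen 1 ⌊x.b⌋
    have h3 := Rel.gen 2 ⌊x.c⌋
    rw [gen_0] at h1
    rw [gen_1] at h2
    rw [gen_2] at h3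
    exact (h1.mul h2).mul h3
  have r2 : Rel g2 := by simp [Rel, hg2]
  have r3 : Rel g3 := by simp [Rel, hg3]
  refine ⟨g1 * g2 * g3, (toR g3)⁻¹ * z, (r1.mul r2).mul r3, ?_, ?_⟩
  · have ya : y.a = x.a - ⌊x.a⌋ := by simp [hy, hg1, -Int.self_sub_floor]; ring
    have yb : y.b = x.b - ⌊x.b⌋ := by simp [hy, hg1, -Int.self_sub_floor]; ring
    have yc : y.c = x.c - ⌊x.c⌋ := by simp [hy, hg1, -Int.self_sub_floor]; ring
    have za : z.a = y.a := by simp [hz, hg2]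
    have zb : z.b = y.b := by simp [hz, hg2]
    have zc : z.c = y.c := by simp [hz, hg2]
    have zab : z.ab = y.ab - ⌊y.ab⌋ := by simp [hz, hg2, -Int.self_sub_floor]; ring
    have zbc : z.bc = y.bc - ⌊y.bc⌋ := by simp [hz, hg2, -Int.self_sub_floor]; ring
    have zca : z.ca = y.ca - ⌊y.ca⌋ := by simp [hz, hg2, -Int.self_sub_floor]; ring
    refine ⟨?_, ?_, ?_, ?_, ?_, ?_, ?_, ?_, ?_⟩
    · exact r3.toR.inv.mul (r2.toR.inv.mul (r1.toR.inv.mul hx))
    · have : ((toR g3)⁻¹ * z).a = z.a := by simp [hg3]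
      rw [this, za, ya]; exact floor_Ico _
    · have : ((toR g3)⁻¹ * z).b = z.b := by simp [hg3]
      rw [this, zb, yb]; exact floor_Ico _
    · have : ((toR g3)⁻¹ * z).c = z.c := by simp [hg3]
      rw [this, zc, yc]; exact floor_Ico _
    · have : ((toR g3)⁻¹ * z).ab = z.ab := by simp [hg3]
      rw [this, zab]; exact floor_Ico _
    · have : ((toR g3)⁻¹ * z).bc = z.bc := by simp [hg3]
      rw [this, zbc]; exact floor_Ico _
    · have : ((toR g3)⁻¹ * z).ca = z.ca := by simp [hg3]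
      rw [this, zca]; exact floor_Ico _
    · have : ((toR g3)⁻¹ * z).abc = z.abc - ⌊z.abc⌋ := by simp [hg3, -Int.self_sub_floor]; ring
      rw [this]; exact floor_Ico _
    · have : ((toR g3)⁻¹ * z).bca = z.bca - ⌊z.bca⌋ := by simp [hg3, -Int.self_sub_floor]; ring
      rw [this]; exact floor_Ico _
  · rw [map_mul, map_mul, hz, hy]
    group

/-- Bounded integral elements have bounded words. -/
lemma exists_word_bdd (K : ℝ) : ∃ N : ℕ, ∀ g : H9 ℤ, Rel g → Bdd K (toR g) →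
    ∃ w : List (ZMod 3 × ℤ), val w = g ∧ w.length ≤ N ∧ cost w ≤ N := by
  classical
  have hfin : Set.Finite {g : H9 ℤ | Bdd K (toR g)} := by
    set k : ℤ := ⌈K⌉ with hk
    set f : (Fin 9 → ℤ) → H9 ℤ := fun u => ⟨u 0, u 1, u 2, u 3, u 4, u 5, u 6, u 7, u 8⟩ with hf
    refine Set.Finite.subset ((Fintype.piFinset fun _ : Fin 9 =>
      Finset.Icc (-k) k).finite_toSet.image f) ?_
    intro g hg
    refine ⟨![g.a, g.b, g.c, g.ab, g.bc, g.ca, g.abc, g.bca, g.cab], ?_, ?_⟩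
    · have key : ∀ n : ℤ, |(n : ℝ)| ≤ K → -k ≤ n ∧ n ≤ k := by
        intro n hn
        have : (|n| : ℤ) ≤ k := by
          have h1 : ((|n| : ℤ) : ℝ) ≤ (k : ℝ) := by
            push_cast
            exact hn.trans (Int.le_ceil K)
          exact_mod_cast h1
        exact abs_le.1 this
      rw [Finset.mem_coe, Fintype.mem_piFinset]
      intro i
      rw [Finset.mem_Icc]
      fin_cases i
      · exact key _ hg.a
      · exact key _ hg.b
      · exact key _ hg.c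
      · exact key _ hg.ab
      · exact key _ hg.bc
      · exact key _ hg.ca
      · exact key _ hg.abc
      · exact key _ hg.bca
      · exact key _ hg.cab
    · rfl
  have hword : ∀ g : H9 ℤ, ∃ w : List (ZMod 3 × ℤ), Rel g → val w = g := by
    intro g
    by_cases h : Rel g
    · obtain ⟨w, hw⟩ := exists_word h
      exact ⟨w, fun _ => hw⟩
    · exact ⟨[], fun h' => absurd h' h⟩
  choose wd hwd using hword
  refine ⟨∑ g ∈ hfin.toFinset, ((wd g).length + (cost (wd g)).toNat), fun g hg hb =>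
    ⟨wd g, hwd g hg, ?_⟩⟩
  have hle := Finset.single_le_sum (f := fun g => ((wd g).length + (cost (wd g)).toNat))
    (fun _ _ => Nat.zero_le _) (hfin.mem_toFinset.2 hb)
  constructor
  · omega
  · have := cost_nonneg (wd g)
    omega

end Pool.Agent.Lib.MP_794d84_al
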