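import Pool.Agent.Lib.MP_794d84_al.Group

/-!
Words (lists of syllables) and their values in `H9 R`; the abelian normal subgroup `emb`, and
the linearity of the value of a word in the masses of one letter.
-/

set_option autoImplicit false

namespace Pool.Agent.Lib.MP_794d84_al

open H9

section ring

variable {R : Type} [CommRing R]

/-- The syllable with letter `j` and exponent `n`. -/
def gen (j : ZMod 3) (n : R) : H9 R := if j = 0 then A n else if j = 1 then B n else C n

lemma zmod3_cases (j : ZMod 3) : j = 0 ∨ j = 1 ∨ j = 2 := by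
  revert j; decide

@[simp] lemma gen_0 (n : R) : gen 0 n = A n := by simp [gen]
@[simp] lemma gen_1 (n : R) : gen 1 n = B n := by simp [gen]
@[simp] lemma gen_2 (n : R) : gen 2 n = C n := by
  have h : (2 : ZMod 3) ≠ 0 := by decide
  have h' : (2 : ZMod 3) ≠ 1 := by decide
  simp [gen, h, h']

@[simp] lemma gen_zero (j : ZMod 3) : gen j (0 : R) = 1 := by
  obtain rfl | rfl | rfl := zmod3_cases j <;> simp [A_zero, B_zero, C_zero]

lemma gen_add (j : ZMod 3) (m n : R) : gen j (m + n) = gen j m * gen j n := by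
  obtain rfl | rfl | rfl := zmod3_cases j <;> simp [A_add, B_add, C_add]

lemma gen_neg (j : ZMod 3) (n : R) : gen j (-n) = (gen j n)⁻¹ := by
  rw [eq_inv_iff_mul_eq_one, ← gen_add]; simp

lemma rot_gen (j : ZMod 3) (n : R) : rot (gen j n) = gen (j + 1) n := by
  obtain rfl | rfl | rfl := zmod3_cases j
  · simp [rot_A]
  · have : (1 : ZMod 3) + 1 = 2 := by decide
    simp [rot_B, this]
  · have : (2 : ZMod 3) + 1 = 0 := by decide
    simp [rot_C, this]

lemma map_gen {R' : Type} [CommRing R'] (f : R →+* R') (j : ZMod 3) (n : R) :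
    map f (gen j n) = gen j (f n) := by
  obtain rfl | rfl | rfl := zmod3_cases j <;> simp [map_A, map_B, map_C]

/-- The value of a word. -/
def val (w : List (ZMod 3 × R)) : H9 R := (w.map fun s => gen s.1 s.2).prod

@[simp] lemma val_nil : val ([] : List (ZMod 3 × R)) = 1 := rfl
@[simp] lemma val_cons (s : ZMod 3 × R) (w : List (ZMod 3 × R)) :
    val (s :: w) = gen s.1 s.2 * val w := by simp [val]
@[simp] lemma val_append (v w : List (ZMod 3 × R)) : val (v ++ w) = val v * val w := by
  simp [val]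

lemma rot_val (w : List (ZMod 3 × R)) :
    rot (val w) = val (w.map fun s => (s.1 + 1, s.2)) := by
  induction w with
  | nil => simp
  | cons s w ih => simp [ih, rot_gen]

/-- Change of scalars for words. -/
def mapw {R' : Type} [CommRing R'] (f : R →+* R') (w : List (ZMod 3 × R)) : List (ZMod 3 × R') :=
  w.map fun s => (s.1, f s.2)

lemma map_val {R' : Type} [CommRing R'] (f : R →+* R') (w : List (ZMod 3 × R)) :
    map f (val w) = val (mapw f w) := by
  induction w with
  | nil => simp [mapw]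
  | cons s w ih => simp [ih, map_gen, mapw]

/-- The inverse word. -/
def invw (w : List (ZMod 3 × R)) : List (ZMod 3 × R) := (w.map fun s => (s.1, -s.2)).reverse

lemma val_invw (w : List (ZMod 3 × R)) : val (invw w) = (val w)⁻¹ := by
  induction w with
  | nil => simp [invw]
  | cons s w ih =>
    have : invw (s :: w) = invw w ++ [(s.1, -s.2)] := by simp [invw]
    rw [this, val_append, ih]
    simp [gen_neg]

/-- The relation satisfied by all products of letters. -/
def Rel (x : H9 R) : Prop :=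
  x.abc + x.bca + x.cab = x.a * x.bc + x.b * x.ca + x.c * x.ab - x.a * x.b * x.c

lemma Rel.one : Rel (1 : H9 R) := by simp [Rel]

lemma Rel.mul {x y : H9 R} (hx : Rel x) (hy : Rel y) : Rel (x * y) := by
  unfold Rel at *
  simp
  linear_combination hx + hy

lemma Rel.inv {x : H9 R} (hx : Rel x) : Rel x⁻¹ := by
  unfold Rel at *
  simp
  linear_combination -hx

lemma Rel.gen (j : ZMod 3) (n : R) : Rel (gen j n) := by
  obtain rfl | rfl | rfl := zmod3_cases j <;> simp [Rel]

lemma Rel.val (w : List (ZMod 3 × R)) : Rel (val w) := by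
  induction w with
  | nil => exact Rel.one
  | cons s w ih => rw [val_cons]; exact (Rel.gen _ _).mul ih

lemma Rel.map {R' : Type} [CommRing R'] (f : R →+* R') {x : H9 R} (hx : Rel x) :
    Rel (map f x) := by
  unfold Rel at *
  have := congrArg f hx
  simpa [H9.map] using this

lemma Rel.rot {x : H9 R} (hx : Rel x) : Rel (rot x) := by
  unfold Rel at *
  simp only [H9.rot, MulEquiv.coe_mk, Equiv.coe_fn_mk]
  linear_combination hx

private lemma val_zab (s : R) :
    val [((0 : ZMod 3), s), (1, 1), (0, -s), (1, -1)] = ⟨0, 0, 0, s, 0, 0, 0, 0, 0⟩ := by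
  ext <;> simp

private lemma val_zbc (s : R) :
    val [((1 : ZMod 3), s), (2, 1), (1, -s), (2, -1)] = ⟨0, 0, 0, 0, s, 0, 0, 0, 0⟩ := by
  ext <;> simp

private lemma val_zca (s : R) :
    val [((2 : ZMod 3), s), (0, 1), (2, -s), (0, -1)] = ⟨0, 0, 0, 0, 0, s, 0, 0, 0⟩ := by
  ext <;> simp

/-- Any element satisfying the relation is the value of a word. -/
lemma exists_word {x : H9 R} (hx : Rel x) : ∃ w : List (ZMod 3 × R), val w = x := by
  set s1 := x.ab - x.a * x.b with hs1
  set s2 := x.bc - x.b * x.c with hs2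
  set s5 := x.bca - x.b * x.ca with hs5
  set s4 := x.abc - x.a * x.bc + s5 with hs4
  set z1 : R → List (ZMod 3 × R) := fun s => [((0 : ZMod 3), s), (1, 1), (0, -s), (1, -1)] with hz1
  set z2 : R → List (ZMod 3 × R) := fun s => [((1 : ZMod 3), s), (2, 1), (1, -s), (2, -1)] with hz2
  set z3 : R → List (ZMod 3 × R) := fun s => [((2 : ZMod 3), s), (0, 1), (2, -s), (0, -1)] with hz3
  have h1 : ∀ s, val (z1 s) = ⟨0, 0, 0, s, 0, 0, 0, 0, 0⟩ := fun s => val_zab s
  have h2 : ∀ s, val (z2 s) = ⟨0, 0, 0, 0, s, 0, 0, 0, 0⟩ := fun s => val_zbc s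
  have h3 : ∀ s, val (z3 s) = ⟨0, 0, 0, 0, 0, s, 0, 0, 0⟩ := fun s => val_zca s
  refine ⟨[((0 : ZMod 3), x.a), (1, x.b), (2, x.c)] ++ z1 s1 ++ z2 s2 ++ z3 x.ca ++
    (z1 s4 ++ [(2, 1)] ++ invw (z1 s4) ++ [(2, -1)]) ++
    (z2 s5 ++ [(0, 1)] ++ invw (z2 s5) ++ [(0, -1)]), ?_⟩
  simp only [val_append, val_invw, h1, h2, h3]
  unfold Rel at hx
  clear_value z1 z2 z3
  ext
  · simp
  · simp
  · simp
  · simp [hs1]
  · simp [hs2]
  · simp
  · simp [hs4, hs2]; ring
  · simp [hs5]
  · simp [hs4, hs5, hs1]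
    linear_combination -hx

/-- The abelian normal subgroup containing the letter `a`. -/
def emb (u : Fin 6 → R) : H9 R := ⟨u 0, 0, 0, u 1, 0, u 2, u 3, u 4, u 5⟩

/-- The coordinates of a conjugate of `A 1`. -/
def vec (x y p : R) : Fin 6 → R := ![1, -x, y, x * y - p, p, -(x * y)]

lemma emb_add (u v : Fin 6 → R) : emb (u + v) = emb u * emb v := by
  ext <;> simp [emb]

lemma emb_zero : emb (0 : Fin 6 → R) = 1 := by
  ext <;> simp [emb]

lemma emb_comm (u v : Fin 6 → R) : emb u * emb v = emb v * emb u := by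
  rw [← emb_add, ← emb_add, add_comm]

lemma conj_A (g : H9 R) (m : R) : g * A m * g⁻¹ = emb (m • vec g.b g.c g.bc) := by
  ext <;> simp [emb, vec] <;> ring

end ring

end Pool.Agent.Lib.MP_794d84_al
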